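import Pool.Agent.H279Z.CF.Ex

namespace Pool.Agent.Results.MP_4bfc47_co.ACloudHalf

open Filter Topology Pool.Agent.H279Z.CF

/-- A cloud-forest graph which is not a thundercloud-forest graph and a function `p` in the range of
the question whose chromatic threshold is at least `1 / 2`, so different from `1 / 3`. -/
theorem result : ∃ H : SimpleGraph (Fin 9), IsCloudForest H ∧ ¬ IsThundercloudForest H ∧
    ∃ p : ℕ → ℝ, (∀ n, 0 < p n ∧ p n ≤ 1) ∧
      Tendsto (fun n : ℕ => max ((n : ℝ) ^ (-(1 / twoDensity H))) ((n : ℝ) ^ (-(1 / 2 : ℝ))) / p n)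
        atTop (𝓝 0) ∧
      Tendsto p atTop (𝓝 0) ∧ 1 / 2 ≤ chromThreshold H p :=
  main

end Pool.Agent.Results.MP_4bfc47_co.ACloudHalf
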